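import Pool.Agent.Helper57_C2.Stmts
import Pool.Agent.Helper35_K9.CHV
import Pool.Agent.Helper2_K9.PUG
import Pool.Agent.Helper34_K9.INX
import Pool.Agent.Helper75_K9.LBR
import Pool.Agent.Helper75_PP.Cen

/-!
# Squad C2, row LBU: lower bound for the block of `C(u)`
-/

open scoped BigOperators

set_option linter.unusedSectionVars false

noncomputable section

namespace Pool.Agent.PP.C2.H82

open Pool.Agent.Helper51_AWC Pool.Agent.Helper79_WRA Pool.Agent.PP Pool.Agent.PP.KF
open Pool.Agent.PP.K9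

attribute [local instance] Ideal.Quotient.field

section grp

variable {G : Type} [Group G] [Finite G]

theorem zpowers_normal {z : G} (hz : z ∈ Subgroup.center G) : (Subgroup.zpowers z).Normal := by
  constructor
  intro q hq g
  have h1 : q ∈ Subgroup.center G := (Subgroup.zpowers_le.2 hz) hq
  have h2 : g * q * g⁻¹ = q := by
    rw [Subgroup.mem_center_iff.1 h1 g, mul_inv_cancel_right]
  rw [h2]
  exact hq

/-- an element which centralises `V / ⟨z⟩` and `⟨z⟩` -/
theorem pow_cent {z : G} (hz : z ∈ Subgroup.center G) {V : Subgroup G} {s : G}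
    (hs : ∀ v ∈ V, s * v * s⁻¹ * v⁻¹ ∈ Subgroup.zpowers z) :
    s ^ orderOf z ∈ Subgroup.centralizer (V : Set G) := by
  rw [Subgroup.mem_centralizer_iff]
  intro v hv
  obtain ⟨q, hq⟩ : ∃ q : G, q = s * v * s⁻¹ * v⁻¹ := ⟨_, rfl⟩
  have hq1 : q ∈ Subgroup.zpowers z := by rw [hq]; exact hs v hv
  have hq2 : q ∈ Subgroup.center G := (Subgroup.zpowers_le.2 hz) hq1
  have hsv : s * v = q * v * s := by rw [hq]; group
  have hj : ∀ j : ℕ, s ^ j * v = q ^ j * v * s ^ j := by
    intro j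
    induction j with
    | zero => simp
    | succ j ih =>
      have e1 : s * q ^ j = q ^ j * s :=
        Subgroup.mem_center_iff.1 (pow_mem hq2 j) s
      calc s ^ (j + 1) * v = s * (s ^ j * v) := by rw [pow_succ']; group
        _ = s * q ^ j * v * s ^ j := by rw [ih]; group
        _ = q ^ j * (s * v) * s ^ j := by rw [e1]; group
        _ = q ^ j * (q * v * s) * s ^ j := by rw [hsv]
        _ = q ^ (j + 1) * v * s ^ (j + 1) := by rw [pow_succ, pow_succ']; group
  have h1 : q ^ orderOf z = 1 := by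
    obtain ⟨i, rfl⟩ := Subgroup.mem_zpowers_iff.1 hq1
    rw [← zpow_natCast, ← zpow_mul, mul_comm, zpow_mul, zpow_natCast, pow_orderOf_eq_one,
      one_zpow]
  rw [hj, h1, one_mul]

theorem cyc_act {ℓ : ℕ} [Fact ℓ.Prime] {z : G} (hz : z ∈ Subgroup.center G) {V T : Subgroup G}
    (hzV : z ∈ V) (hcard : Nat.card V = ℓ * orderOf z) (hpow : IsPGroup ℓ V)
    (hTV : T ≤ Subgroup.normalizer (V : Set G))
    (hidx : ¬ ℓ ∣ (Subgroup.centralizer (V : Set G)).relIndex T) :
    ∃ t₀ ∈ T, ∀ t ∈ T, ∃ k : ℕ, t₀ ^ k * t ∈ Subgroup.centralizer (V : Set G) := by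
  have hpr : ℓ.Prime := Fact.out
  have := zpowers_normal hz
  obtain ⟨p, hp⟩ : ∃ p : G →* G ⧸ Subgroup.zpowers z, p = QuotientGroup.mk' _ := ⟨_, rfl⟩
  have hps : Function.Surjective p := by rw [hp]; exact QuotientGroup.mk'_surjective _
  have hpk : p.ker = Subgroup.zpowers z := by rw [hp]; exact QuotientGroup.ker_mk' _
  have hQV : Subgroup.zpowers z ≤ V := Subgroup.zpowers_le.2 hzV
  have hVc : (V.map p).comap p = V := Subgroup.comap_map_eq_self (by rw [hpk]; exact hQV)
  have hV' : Nat.card (V.map p) = ℓ := by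
    have h1 := PP.H75.card_comap hps (V.map p)
    rw [hVc, hcard, hpk, Nat.card_zpowers, mul_comm ℓ] at h1
    exact (Nat.eq_of_mul_eq_mul_left (orderOf_pos z) h1).symm
  have hV'p : (Nat.card (V.map p)).Prime := by rw [hV']; exact hpr
  have : Fact (Nat.card (V.map p)).Prime := ⟨hV'p⟩
  have hcy : IsCyclic (V.map p) := isCyclic_of_prime_card (p := Nat.card (V.map p)) rfl
  have hcm : IsCyclic (MulAut (V.map p)) :=
    isCyclic_of_surjective (IsCyclic.mulAutMulEquiv (V.map p)).symm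
      (IsCyclic.mulAutMulEquiv (V.map p)).symm.surjective
  have hmem : ∀ t ∈ T, p t ∈ Subgroup.normalizer ((V.map p : Subgroup _) : Set _) := by
    intro t ht
    rw [← PP.H75.normalizer_comap hps, hVc]
    exact hTV ht
  let f : T →* Subgroup.normalizer ((V.map p : Subgroup _) : Set _) :=
    (p.comp T.subtype).codRestrict _ (fun t => hmem t t.2)
  let φ : T →* MulAut (V.map p) := (V.map p).normalizerMonoidHom.comp f
  have hker : ∀ s : T, φ s = 1 → (s : G) ∈ Subgroup.centralizer (V : Set G) := by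
    intro s hs
    have h1 : f s ∈ (V.map p).normalizerMonoidHom.ker := hs
    rw [Subgroup.normalizerMonoidHom_ker, Subgroup.mem_subgroupOf] at h1
    have h2 : p (s : G) ∈ Subgroup.centralizer ((V.map p : Subgroup _) : Set _) := h1
    have h3 : ∀ v ∈ V, (s : G) * v * (s : G)⁻¹ * v⁻¹ ∈ Subgroup.zpowers z := by
      intro v hv
      rw [← hpk, MonoidHom.mem_ker, map_mul, map_mul, map_mul, map_inv, map_inv,
        ← Subgroup.mem_centralizer_iff.1 h2 (p v) ⟨v, hv, rfl⟩]
      group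
    have h4 := pow_cent hz h3
    -- the power given by the index
    have hn : ((Subgroup.centralizer (V : Set G)).subgroupOf T).Normal := by
      constructor
      intro c hc t
      rw [Subgroup.mem_subgroupOf] at hc ⊢
      rw [Subgroup.mem_centralizer_iff] at hc ⊢
      intro v hv
      have h5 : (t : G)⁻¹ * v * (t : G) ∈ V := by
        have := (Subgroup.mem_normalizer_iff.1 (inv_mem (hTV t.2)) v).1 hv
        rwa [inv_inv] at this
      have h6 := hc _ h5
      change v * ((t : G) * c * (t : G)⁻¹) = (t : G) * c * (t : G)⁻¹ * v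
      calc v * ((t : G) * c * (t : G)⁻¹) = (t : G) * ((t : G)⁻¹ * v * t * c) * (t : G)⁻¹ := by
            group
        _ = (t : G) * (c * ((t : G)⁻¹ * v * t)) * (t : G)⁻¹ := by rw [h6]
        _ = (t : G) * c * (t : G)⁻¹ * v := by group
    have h5 : (s : G) ^ (Subgroup.centralizer (V : Set G)).relIndex T ∈
        Subgroup.centralizer (V : Set G) :=
      Subgroup.pow_index_mem ((Subgroup.centralizer (V : Set G)).subgroupOf T) s
    obtain ⟨a, ha⟩ : ∃ a, orderOf z = ℓ ^ a := by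
      obtain ⟨a, ha⟩ := IsPGroup.iff_orderOf.1 hpow ⟨z, hzV⟩
      exact ⟨a, by rw [← ha, Subgroup.orderOf_mk]⟩
    have hco : Nat.Coprime (orderOf z) ((Subgroup.centralizer (V : Set G)).relIndex T) := by
      rw [ha]
      exact Nat.Coprime.pow_left a ((Nat.Prime.coprime_iff_not_dvd hpr).2 hidx)
    have h6 := Nat.gcd_eq_gcd_ab (orderOf z) ((Subgroup.centralizer (V : Set G)).relIndex T)
    rw [hco.gcd_eq_one] at h6
    have h7 : (s : G) = ((s : G) ^ orderOf z) ^ (orderOf z).gcdA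
          ((Subgroup.centralizer (V : Set G)).relIndex T) *
        ((s : G) ^ (Subgroup.centralizer (V : Set G)).relIndex T) ^ (orderOf z).gcdB
          ((Subgroup.centralizer (V : Set G)).relIndex T) := by
      rw [← zpow_natCast, ← zpow_natCast, ← zpow_mul, ← zpow_mul, ← zpow_add, ← h6]
      simp
    rw [h7]
    exact mul_mem (zpow_mem h4 _) (zpow_mem h5 _)
  obtain ⟨⟨_, t0, rfl⟩, h0⟩ := IsCyclic.exists_generator (α := φ.range)
  refine ⟨t0, t0.2, fun t ht => ?_⟩
  have h1 := h0 (⟨φ ⟨t, ht⟩, ⟨⟨t, ht⟩, rfl⟩⟩ : φ.range)⁻¹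
  rw [← mem_powers_iff_mem_zpowers] at h1
  obtain ⟨k, hk⟩ := h1
  refine ⟨k, hker (t0 ^ k * ⟨t, ht⟩) ?_⟩
  have h2 := congrArg Subtype.val hk
  rw [map_mul, map_pow]
  have h3 : φ t0 ^ k = (φ ⟨t, ht⟩)⁻¹ := h2
  rw [h3, inv_mul_cancel]

end grp

theorem lbu (hInu : InuStmt) (hNrm : NrmStmt) (hCyc : CycStmt) (hPsn : PsnStmt) : LbuStmt := by
  intro ℓ hℓ M _ hM G _ _ e V γ T hI u hu hcard β hβ
  have hpr : ℓ.Prime := hℓ.out
  have hF : GoodF ℓ (FF M) := PP.H50.fld ℓ hℓ.out M hM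
  have hI1 := hInu ℓ (FF M) hF G e V γ T hI u hu β hβ
  have hVC : V ≤ Cu u := by
    intro v hv
    rw [Subgroup.mem_centralizer_singleton_iff]
    exact hI.comm v hv u hu
  have hCC : Subgroup.centralizer (V : Set G) ≤ Cu u := by
    intro x hx
    rw [Subgroup.mem_centralizer_singleton_iff]
    exact (Subgroup.mem_centralizer_iff.1 hx u hu).symm
  obtain ⟨z, hz⟩ : ∃ z : Cu u, z = ⟨u, hVC hu⟩ := ⟨_, rfl⟩
  have hzc : z ∈ Subgroup.center (Cu u) := by
    rw [Subgroup.mem_center_iff]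
    intro g
    apply Subtype.ext
    rw [hz]
    exact Subgroup.mem_centralizer_singleton_iff.1 g.2
  have hzo : orderOf z = orderOf u := by rw [hz, Subgroup.orderOf_mk]
  obtain ⟨V1, hV1⟩ : ∃ V1 : Subgroup (Cu u), V1 = V.subgroupOf (Cu u) := ⟨_, rfl⟩
  obtain ⟨T1, hT1⟩ : ∃ T1 : Subgroup (Cu u), T1 = T.subgroupOf (Cu u) := ⟨_, rfl⟩
  obtain ⟨b, hb⟩ : ∃ b : Cu u → FF M, b = fun t : Cu u => β t := ⟨_, rfl⟩
  obtain ⟨g, hg⟩ : ∃ g : Cu u → FF M, g = fun t : Cu u => γ t := ⟨_, rfl⟩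
  rw [← hV1, ← hT1, ← hb, ← hg] at hI1
  rw [← hb]
  have hzV : z ∈ V1 := by
    rw [hV1, Subgroup.mem_subgroupOf, hz]
    exact hu
  have hV1c : Nat.card V1 = ℓ * orderOf z := by
    rw [hzo, ← hcard, hV1]
    exact Nat.card_congr (Subgroup.subgroupOfEquivOfLe hVC).toEquiv
  have hT1N : T1 ≤ Subgroup.normalizer (V1 : Set (Cu u)) := by
    rw [hI1.stb]
    exact inf_le_left
  have hidx : ¬ ℓ ∣ (Subgroup.centralizer (V1 : Set (Cu u))).relIndex T1 := by
    rw [hI1.stb]
    exact H34.inx ℓ M hM (Cu u) b hI1.blk V1 hI1.tp hI1.comm g hI1.gam.off hI1.gam.blk hI1.und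
  have hcyc := cyc_act hzc hzV hV1c hI1.tp.pg hT1N hidx
  have h1 := hNrm ℓ M hM (Cu u) b V1 g T1 hI1 hcyc
  -- the index
  have h2 : (Subgroup.centralizer (V1 : Set (Cu u))).relIndex T1 =
      (Subgroup.centralizer (V : Set G)).relIndex (T ⊓ Cu u) := by
    have e1 : Subgroup.centralizer (V1 : Set (Cu u)) =
        (Subgroup.centralizer (V : Set G)).subgroupOf (Cu u) := by
      ext x
      rw [Subgroup.mem_subgroupOf, Subgroup.mem_centralizer_iff, Subgroup.mem_centralizer_iff]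
      constructor
      · intro h v hv
        have := h ⟨v, hVC hv⟩ (by rw [hV1]; exact hv)
        exact congrArg Subtype.val this
      · intro h v hv
        rw [hV1] at hv
        exact Subtype.ext (h v hv)
    have e2 : T1 = (T ⊓ Cu u).subgroupOf (Cu u) := by
      rw [hT1, Subgroup.inf_subgroupOf_right]
    rw [e1, e2, Subgroup.relIndex_subgroupOf inf_le_right]
  -- the quotient
  have := zpowers_normal hzc
  obtain ⟨p, hp⟩ : ∃ p : Cu u →* Cu u ⧸ Subgroup.zpowers z, p = QuotientGroup.mk' _ := ⟨_, rfl⟩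
  have hps : Function.Surjective p := by rw [hp]; exact QuotientGroup.mk'_surjective _
  have hpk : p.ker = Subgroup.zpowers z := by rw [hp]; exact QuotientGroup.ker_mk' _
  have hQV : p.ker ≤ V1 := by rw [hpk]; exact Subgroup.zpowers_le.2 hzV
  have hVc : (V1.map p).comap p = V1 := Subgroup.comap_map_eq_self hQV
  have hkp : IsPGroup ℓ p.ker := hI1.tp.pg.to_le hQV
  have hkc : p.ker ≤ Subgroup.center (Cu u) := by rw [hpk]; exact Subgroup.zpowers_le.2 hzc
  have hbi : IsIdem b := hI1.blk.1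
  have hb' : IsBlk (PP.H75.push p b) := hPsn ℓ (FF M) hF _ _ p hps hkp hkc b hI1.blk
  have hV'c : Nat.card (V1.map p) = ℓ := by
    have h1 := PP.H75.card_comap hps (V1.map p)
    rw [hVc, hV1c, hpk, Nat.card_zpowers, mul_comm ℓ] at h1
    exact (Nat.eq_of_mul_eq_mul_left (orderOf_pos z) h1).symm
  have hV'g : Gd (PP.H75.push p b) (V1.map p) :=
    (H02.pug ℓ (FF M) hF _ _ p hps hkp b hbi V1 hQV hI1.tp.pg).1 hI1.tp.gd
  have hV't : Tp ℓ (PP.H75.push p b) (V1.map p) := by
    refine ⟨hI1.tp.pg.map p, hV'g, ?_⟩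
    intro R hR hRg
    have k1 : p.ker ≤ R.comap p := by
      intro x hx
      rw [MonoidHom.mem_ker] at hx
      rw [Subgroup.mem_comap, hx]
      exact R.one_mem
    have k2 : IsPGroup ℓ (R.comap p) := (PP.H75.isPGroup_comap_iff hps hkp R).2 hR
    have k3 := (H02.pug ℓ (FF M) hF _ _ p hps hkp b hbi (R.comap p) k1 k2).2 (by
      rw [Subgroup.map_comap_eq_self_of_surjective hps]
      exact hRg)
    have k4 := hI1.tp.mx _ k2 k3
    rw [← hVc, PP.H75.card_comap hps, PP.H75.card_comap hps] at k4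
    exact Nat.le_of_mul_le_mul_left k4 Nat.card_pos
  have h3 := hCyc ℓ M hM _ (PP.H75.push p b) hb' (V1.map p) hV't hV'c
  -- the numbers
  have hV1p : IsPGroup ℓ V1 := hI1.tp.pg
  have n1 : lb (fun t : Subgroup.normalizer (V1 : Set (Cu u)) => br V1 b t) =
      lnum (Subgroup.normalizer (V1 : Set (Cu u))) b :=
    ((K9.H75.lbr ℓ (FF M) hF (Cu u) b hbi V1 (Subgroup.normalizer (V1 : Set (Cu u))) hV1p
      Subgroup.le_normalizer le_rfl).1).symm
  have n2 : lb (fun t : Subgroup.normalizer ((V1.map p : Subgroup (Cu u ⧸ Subgroup.zpowers z)) :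
      Set (Cu u ⧸ Subgroup.zpowers z)) =>
        br (V1.map p) (PP.H75.push p b) t) =
      lnum (Subgroup.normalizer ((V1.map p : Subgroup (Cu u ⧸ Subgroup.zpowers z)) :
      Set (Cu u ⧸ Subgroup.zpowers z))) (PP.H75.push p b) :=
    ((K9.H75.lbr ℓ (FF M) hF _ (PP.H75.push p b) hb'.1 (V1.map p)
      (Subgroup.normalizer ((V1.map p : Subgroup (Cu u ⧸ Subgroup.zpowers z)) :
      Set (Cu u ⧸ Subgroup.zpowers z))) (hV1p.map p)
      Subgroup.le_normalizer le_rfl).1).symm
  have n3 : (Subgroup.normalizer ((V1.map p : Subgroup (Cu u ⧸ Subgroup.zpowers z)) :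
      Set (Cu u ⧸ Subgroup.zpowers z))).comap p =
      Subgroup.normalizer (V1 : Set (Cu u)) := by
    ext x
    rw [Subgroup.mem_comap, ← PP.H75.normalizer_comap hps, hVc]
  have n4 := PP.H75.lnum_comap PP.H20.nls hF hps hkp
    (Subgroup.normalizer ((V1.map p : Subgroup (Cu u ⧸ Subgroup.zpowers z)) :
      Set (Cu u ⧸ Subgroup.zpowers z))) b
  have n5 := PP.H75.lnum_comap PP.H20.nls hF hps hkp ⊤ b
  rw [Subgroup.comap_top, H35.lnum_top, H35.lnum_top] at n5
  rw [n3] at n4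
  have n6 : lb b = lb (PP.H75.push p b) := n5
  rw [n6, h3, n2, ← n4, ← n1, ← h2]
  exact h1

end Pool.Agent.PP.C2.H82
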