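import Pool.Agent.Helper82_C2.Cnt
import Pool.Agent.Helper2_K9.PUG
import Pool.Agent.Helper34_K9.INX
import Pool.Agent.Helper3_K9.Lbd
import Pool.Agent.Helper1_K9.DZO
import Pool.Agent.Helper82_K9.WBO
import Pool.Agent.Helper82_K9.TRB
import Pool.Agent.Helper53_K9.Tra
import Pool.Agent.Helper20_PP.Rst

/-!
# Squad C2, row NRM: lower bound for the number of modular characters of the block of `N(V)`
-/

open scoped BigOperators

set_option linter.unusedSectionVars false

noncomputable section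

namespace Pool.Agent.PP.C2.H82

open Pool.Agent.Helper51_AWC Pool.Agent.Helper79_WRA Pool.Agent.PP Pool.Agent.PP.KF
open Pool.Agent.PP.K9

attribute [local instance] Ideal.Quotient.field

/-- a block of `C(V)` has exactly one irreducible modular character -/
theorem cnt_one (hPsn : PsnStmt) {ℓ : ℕ} [Fact ℓ.Prime] {M : Ideal (integralClosure ℤ ℂ)}
    [M.IsMaximal] (hM : (ℓ : integralClosure ℤ ℂ) ∈ M) {G : Type} [Group G] [Finite G]
    {e : G → FF M} {V : Subgroup G} {γ : G → FF M} {T : Subgroup G} (hI : Inr ℓ e V γ T) :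
    PP.H75.cnt (fun t : Subgroup.centralizer (V : Set G) => γ t) = 1 := by
  have hF : GoodF ℓ (FF M) := PP.H50.fld ℓ (Fact.out) M hM
  have hVA : V ≤ Subgroup.centralizer (V : Set G) := by
    intro v hv
    rw [Subgroup.mem_centralizer_iff]
    exact fun w hw => hI.comm w hw v hv
  obtain ⟨Z, hZ⟩ : ∃ Z : Subgroup (Subgroup.centralizer (V : Set G)),
      Z = V.subgroupOf (Subgroup.centralizer (V : Set G)) := ⟨_, rfl⟩
  have hZc : Z ≤ Subgroup.center (Subgroup.centralizer (V : Set G)) := by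
    intro z hz
    rw [hZ, Subgroup.mem_subgroupOf] at hz
    rw [Subgroup.mem_center_iff]
    intro g
    exact Subtype.ext (Subgroup.mem_centralizer_iff.1 g.2 z hz).symm
  have hZn : Z.Normal := by
    constructor
    intro z hz g
    have h1 : g * z * g⁻¹ = z := by
      rw [Subgroup.mem_center_iff.1 (hZc hz) g, mul_inv_cancel_right]
    rw [h1]
    exact hz
  have hZcard : Nat.card Z = Nat.card V := by
    rw [hZ]
    exact Nat.card_congr (Subgroup.subgroupOfEquivOfLe hVA).toEquiv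
  have hZp : IsPGroup ℓ Z := by
    rw [hZ]
    exact hI.tp.pg.comap_subtype
  obtain ⟨p, hp⟩ : ∃ p : Subgroup.centralizer (V : Set G) →* _ ⧸ Z, p = QuotientGroup.mk' Z :=
    ⟨_, rfl⟩
  have hps : Function.Surjective p := by rw [hp]; exact QuotientGroup.mk'_surjective _
  have hpk : p.ker = Z := by rw [hp]; exact QuotientGroup.ker_mk' _
  obtain ⟨g, hg⟩ : ∃ g : Subgroup.centralizer (V : Set G) → FF M,
      g = fun t : Subgroup.centralizer (V : Set G) => γ t := ⟨_, rfl⟩
  have hgb : IsBlk g := by rw [hg]; exact hI.gam.blk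
  have hb' : IsBlk (PP.H75.push p g) :=
    hPsn ℓ (FF M) hF _ _ p hps (by rw [hpk]; exact hZp) (by rw [hpk]; exact hZc) g hgb
  -- the function `e` on `C(V)`
  obtain ⟨a, ha⟩ : ∃ a : Subgroup.centralizer (V : Set G) → FF M,
      a = fun t : Subgroup.centralizer (V : Set G) => br V e t := ⟨_, rfl⟩
  have hai : IsIdem a := by
    rw [ha]
    exact (PP.H20.brm ℓ (FF M) hF G V (Subgroup.centralizer (V : Set G)) hI.tp.pg le_rfl
      (Subgroup.centralizer_le_normalizer _)).2.2 e hI.blk.1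
  have hag : mulF a g = g := by
    rw [ha, hg, ← PP.H75.mulF_res (Subgroup.centralizer (V : Set G)) γ
      (fun x hx => PP.H66.br_of_not_mem hx), hI.und]
  have hgood : ∀ R : Subgroup (Subgroup.centralizer (V : Set G) ⧸ Z), IsPGroup ℓ R →
      Gd (PP.H75.push p g) R → R = ⊥ := by
    intro R hR hRg
    have hk : IsPGroup ℓ p.ker := by rw [hpk]; exact hZp
    have k1 : p.ker ≤ R.comap p := by
      intro x hx
      rw [MonoidHom.mem_ker] at hx
      rw [Subgroup.mem_comap, hx]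
      exact R.one_mem
    have k2 : IsPGroup ℓ (R.comap p) := (PP.H75.isPGroup_comap_iff hps hk R).2 hR
    have k3 := (H02.pug ℓ (FF M) hF _ _ p hps hk g hgb.1 (R.comap p) k1 k2).2 (by
      rw [Subgroup.map_comap_eq_self_of_surjective hps]
      exact hRg)
    have k4 := (PP.H20.brm ℓ (FF M) hF _ (R.comap p)
      (Subgroup.centralizer ((R.comap p : Subgroup _) : Set _)) k2 le_rfl
      (Subgroup.centralizer_le_normalizer _)).1 a g hai.1 hgb.1.1
    rw [hag] at k4
    have k5 : ∃ x, br (R.comap p) a x ≠ 0 := by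
      by_contra hno
      push Not at hno
      have h0 : br (R.comap p) a = 0 := funext hno
      rw [h0, PP.H75.mulF_zero_left] at k4
      obtain ⟨y, hy, hy0⟩ := k3
      apply hy0
      have := congrFun k4 y
      rwa [PP.H66.br_of_mem hy] at this
    obtain ⟨x, hx⟩ := k5
    have hxc : x ∈ Subgroup.centralizer ((R.comap p : Subgroup _) : Set _) := by
      by_contra hno
      exact hx (PP.H66.br_of_not_mem hno)
    rw [PP.H66.br_of_mem hxc, ha] at hx
    have hex : e x ≠ 0 := by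
      intro h0
      apply hx
      change br V e x = 0
      rw [PP.H66.br_of_mem x.2, h0]
    have k6 : Gd e ((R.comap p).map (Subgroup.subtype _)) := by
      refine ⟨x, ?_, hex⟩
      rw [Subgroup.mem_centralizer_iff]
      rintro _ ⟨y, hy, rfl⟩
      exact congrArg Subtype.val (Subgroup.mem_centralizer_iff.1 hxc y hy)
    have k7 := hI.tp.mx _ (k2.map _) k6
    have hkc : Nat.card p.ker = Nat.card V := by rw [hpk, hZcard]
    rw [Subgroup.card_map_of_injective (Subgroup.subtype_injective _), ← hkc] at k7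
    have k8 : p.ker = R.comap p := Subgroup.eq_of_le_of_card_ge k1 k7
    have k9 : R = (R.comap p).map p := (Subgroup.map_comap_eq_self_of_surjective hps R).symm
    rw [k9, ← k8]
    rw [Subgroup.eq_bot_iff_forall]
    rintro _ ⟨y, hy, rfl⟩
    exact hy
  have hwbo : WboStmt := H82W.wbo (H82.trb H53.tra)
  obtain ⟨κ, hκ, -⟩ := H1.dzo hwbo ℓ M hM _ _ hb' hgood
  have hl := H3.lbd ℓ M hM _ _ hb'.1 hb'.2.1
  rw [hκ, Set.ncard_singleton] at hl
  rw [← hg, PP.H75.cnt_push PP.H20.nls hF hps (by rw [hpk]; exact hZp) g]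
  exact le_antisymm hl.2 hl.1

/-- the inertial group as the stabiliser of `γ` in the group `N(V)` -/
theorem st_eq {F : Type} [Field F] {G : Type} [Group G] [Finite G] {V : Subgroup G} {γ : G → F}
    (hoff : ∀ x, x ∉ Subgroup.centralizer (V : Set G) → γ x = 0) :
    PP.H75.st (fun t : Subgroup.normalizer (V : Set G) => γ t) =
      (Subgroup.normalizer (V : Set G) ⊓ stabF γ).subgroupOf (Subgroup.normalizer (V : Set G)) := by
  ext g
  rw [PP.H75.mem_st, PP.H75.cj_eq_iff, Subgroup.mem_subgroupOf, Subgroup.mem_inf]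
  constructor
  · intro h
    refine ⟨g.2, fun x => ?_⟩
    by_cases hx : x ∈ Subgroup.normalizer (V : Set G)
    · exact h ⟨x, hx⟩
    · have h1 : x ∉ Subgroup.centralizer (V : Set G) := fun h' =>
        hx (Subgroup.centralizer_le_normalizer _ h')
      have h2 : (g : G) * x * (g : G)⁻¹ ∉ Subgroup.centralizer (V : Set G) := by
        intro h'
        apply hx
        have h3 := Subgroup.centralizer_le_normalizer _ h'
        have h4 := mul_mem (mul_mem (inv_mem g.2) h3) g.2
        have e : (g : G)⁻¹ * ((g : G) * x * (g : G)⁻¹) * g = x := by group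
        rwa [e] at h4
      rw [hoff _ h1, hoff _ h2]
  · intro h x
    exact h.2 x

theorem nrm (hPsn : PsnStmt) : NrmStmt := by
  classical
  intro ℓ hℓ M _ hM G _ _ e V γ T hI hcyc
  have hF : GoodF ℓ (FF M) := PP.H50.fld ℓ hℓ.out M hM
  have hone := cnt_one hPsn hM hI
  have hCN : Subgroup.centralizer (V : Set G) ≤ Subgroup.normalizer (V : Set G) :=
    Subgroup.centralizer_le_normalizer _
  have hCT : Subgroup.centralizer (V : Set G) ≤ T := by
    intro x hx
    rw [hI.stb]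
    refine ⟨hCN hx, fun y => ?_⟩
    by_cases hy : y ∈ Subgroup.centralizer (V : Set G)
    · exact hI.gam.blk.1.1 ⟨y, hy⟩ ⟨x, hx⟩
    · have h1 : x * y * x⁻¹ ∉ Subgroup.centralizer (V : Set G) := by
        intro h'
        apply hy
        have h4 := mul_mem (mul_mem (inv_mem hx) h') hx
        have e : x⁻¹ * (x * y * x⁻¹) * x = y := by group
        rwa [e] at h4
      rw [hI.gam.off _ hy, hI.gam.off _ h1]
  have hTN : T ≤ Subgroup.normalizer (V : Set G) := by
    rw [hI.stb]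
    exact inf_le_left
  -- the group `N(V)`
  obtain ⟨C₁, hC₁⟩ : ∃ C₁ : Subgroup (Subgroup.normalizer (V : Set G)),
      C₁ = (Subgroup.centralizer (V : Set G)).subgroupOf (Subgroup.normalizer (V : Set G)) :=
    ⟨_, rfl⟩
  obtain ⟨b, hb⟩ : ∃ b : Subgroup.normalizer (V : Set G) → FF M,
      b = fun t : Subgroup.normalizer (V : Set G) => γ t := ⟨_, rfl⟩
  obtain ⟨f, hf⟩ : ∃ f : Subgroup.normalizer (V : Set G) → FF M,
      f = fun t : Subgroup.normalizer (V : Set G) => br V e t := ⟨_, rfl⟩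
  have hC₁n : C₁.Normal := by
    rw [hC₁]
    constructor
    intro c hc t
    rw [Subgroup.mem_subgroupOf] at hc ⊢
    rw [Subgroup.mem_centralizer_iff] at hc ⊢
    intro v hv
    have h5 : (t : G)⁻¹ * v * (t : G) ∈ V := by
      have := (Subgroup.mem_normalizer_iff.1 (inv_mem t.2) v).1 hv
      rwa [inv_inv] at this
    have h6 := hc _ h5
    change v * ((t : G) * c * (t : G)⁻¹) = (t : G) * c * (t : G)⁻¹ * v
    calc v * ((t : G) * c * (t : G)⁻¹) = (t : G) * ((t : G)⁻¹ * v * t * c) * (t : G)⁻¹ := by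
          group
      _ = (t : G) * (c * ((t : G)⁻¹ * v * t)) * (t : G)⁻¹ := by rw [h6]
      _ = (t : G) * c * (t : G)⁻¹ * v := by group
  have hbs : ∀ x, x ∉ C₁ → b x = 0 := by
    intro x hx
    rw [hb]
    apply hI.gam.off
    intro h'
    apply hx
    rw [hC₁, Subgroup.mem_subgroupOf]
    exact h'
  have hbb : IsBlk (fun t : C₁ => b t) := by
    have h1 := PP.H20.IsBlk_equiv (Subgroup.subgroupOfEquivOfLe hCN) hI.gam.blk
    rw [hb]
    subst hC₁
    exact h1
  have hBd : PP.H75.Bd C₁ b := ⟨hC₁n, hbs, hbb⟩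
  have hfi : IsIdem f := by
    rw [hf]
    exact (PP.H20.brm ℓ (FF M) hF G V (Subgroup.normalizer (V : Set G)) hI.tp.pg hCN le_rfl).2.2
      e hI.blk.1
  have hfb : mulF f b = b := by
    rw [hf, hb, ← PP.H75.mulF_res (Subgroup.normalizer (V : Set G)) γ (fun x hx =>
      PP.H66.br_of_not_mem (fun h' => hx (hCN h'))), hI.und]
  have hst : PP.H75.st b = T.subgroupOf (Subgroup.normalizer (V : Set G)) := by
    rw [hb, st_eq hI.gam.off, ← hI.stb]
  obtain ⟨S, hS⟩ : ∃ S : Subgroup (Subgroup.normalizer (V : Set G)), S = PP.H75.st b := ⟨_, rfl⟩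
  have hcor : PP.H75.Cor S b := by
    have := Fintype.ofFinite (PP.H75.Om b)
    have h1 := (hBd.fam2 hfi).cor (PP.H75.omk b 1)
    rw [PP.H75.om_stab, PP.H75.omk_one, hfb, ← hS] at h1
    exact h1
  have h1 := hcor.card PP.H20.ibf PP.H20.ibj PP.H20.ibn PP.H20.eig hF
  have h2 : {φ : Subgroup.normalizer (V : Set G) → FF M |
      φ ∈ IBr (FF M) (Subgroup.normalizer (V : Set G)) ∧ actF b φ ≠ 0}.ncard ≤ lb f := by
    apply Set.ncard_le_ncard _ ((PP.H20.ibf ℓ (FF M) hF _).1.subset (fun φ hφ => hφ.1))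
    rintro φ ⟨⟨n, ρ, hρ, rfl⟩, h0⟩
    refine ⟨⟨n, ρ, hρ, rfl⟩, ?_⟩
    obtain ⟨w, hw1, hw2, hw3⟩ := PP.H20.eig (FF M) _ n ρ hρ f hfi.1
    rcases hw3 hfi with h | h
    · exfalso
      apply h0
      rw [← PP.H75.ev_zero_iff hρ, ← hfb, ev_mulF, hw1, h, map_zero, zero_mul]
    · rw [hw2, h, one_smul]
  rw [h1] at h2
  rw [← hf]
  refine le_trans ?_ h2
  -- the group `S`
  obtain ⟨C₂, hC₂⟩ : ∃ C₂ : Subgroup S, C₂ = C₁.subgroupOf S := ⟨_, rfl⟩
  have hC₁S : C₁ ≤ S := by rw [hS]; exact hBd.le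
  have hC₂n : C₂.Normal := by
    rw [hC₂]
    exact hC₁n.comap _
  have hidx : C₂.index = (Subgroup.centralizer (V : Set G)).relIndex T := by
    rw [hC₂]
    change C₁.relIndex S = _
    rw [hC₁, hS, hst, Subgroup.relIndex_subgroupOf hTN]
  have hnd : ¬ ℓ ∣ C₂.index := by
    rw [hidx, hI.stb]
    exact H34.inx ℓ M hM G e hI.blk V hI.tp hI.comm γ hI.gam.off hI.gam.blk hI.und
  have hone2 : PP.H75.cnt (fun t : C₂ => b ((t : S) : Subgroup.normalizer (V : Set G))) = 1 := by
    have k1 := PP.H75.cnt_equiv ((Subgroup.subgroupOfEquivOfLe hC₁S).trans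
      ((MulEquiv.subgroupCongr hC₁).trans (Subgroup.subgroupOfEquivOfLe hCN)))
      (fun t : Subgroup.centralizer (V : Set G) => γ t)
    rw [hone] at k1
    rw [hb]
    subst hC₂
    exact k1
  obtain ⟨θ, hθ⟩ := Set.ncard_eq_one.1 hone2
  have hθ1 : θ ∈ IBr (FF M) C₂ ∧
      actF (fun t : C₂ => b ((t : S) : Subgroup.normalizer (V : Set G))) θ = θ := by
    have : θ ∈ ({θ} : Set (C₂ → FF M)) := rfl
    rw [← hθ] at this
    exact this
  obtain ⟨t₀, ht₀, hgen⟩ := hcyc
  have hTS : ∀ t ∈ T, ∃ h : t ∈ Subgroup.normalizer (V : Set G),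
      (⟨t, h⟩ : Subgroup.normalizer (V : Set G)) ∈ S := by
    intro t ht
    refine ⟨hTN ht, ?_⟩
    rw [hS, hst, Subgroup.mem_subgroupOf]
    exact ht
  obtain ⟨h₀, h₀'⟩ := hTS t₀ ht₀
  obtain ⟨s₀, hs₀⟩ : ∃ s₀ : S, s₀ = ⟨⟨t₀, h₀⟩, h₀'⟩ := ⟨_, rfl⟩
  have hinv : ∀ (s : S) (x : Subgroup.normalizer (V : Set G)),
      b ((s : Subgroup.normalizer (V : Set G)) * x *
        (s : Subgroup.normalizer (V : Set G))⁻¹) = b x := by
    intro s x
    have h3 : (s : Subgroup.normalizer (V : Set G)) ∈ PP.H75.st b := by rw [← hS]; exact s.2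
    rw [PP.H75.mem_st, PP.H75.cj_eq_iff] at h3
    exact h3 x
  have hstab : ∀ c : C₂, θ (cn hC₂n s₀ c) = θ c := by
    have k1 := PP.H75.IBr_comp (MulAut.conjNormal s₀ : C₂ ≃* C₂) hθ1.1
    have k2 := PP.H75.actF_comp (MulAut.conjNormal s₀ : C₂ ≃* C₂)
      (fun t : C₂ => b ((t : S) : Subgroup.normalizer (V : Set G))) θ
    have k3 : (fun x : C₂ => (fun t : C₂ => b ((t : S) : Subgroup.normalizer (V : Set G)))
        ((MulAut.conjNormal s₀ : C₂ ≃* C₂) x)) =
        (fun t : C₂ => b ((t : S) : Subgroup.normalizer (V : Set G))) := by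
      funext x
      exact hinv s₀ ((x : S) : Subgroup.normalizer (V : Set G))
    rw [k3, hθ1.2] at k2
    have k4 : (fun x : C₂ => θ ((MulAut.conjNormal s₀ : C₂ ≃* C₂) x)) ∈
        {f : C₂ → FF M | f ∈ IBr (FF M) C₂ ∧
          actF (fun t : C₂ => b ((t : S) : Subgroup.normalizer (V : Set G))) f = f} := ⟨k1, k2⟩
    rw [hθ] at k4
    intro c
    exact congrFun (Set.mem_singleton_iff.1 k4) c
  have hgen2 : ∀ g : S, ∃ k : ℕ, s₀ ^ k * g ∈ C₂ := by
    intro g
    have hg : ((g : Subgroup.normalizer (V : Set G)) : G) ∈ T := by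
      have h3 : (g : Subgroup.normalizer (V : Set G)) ∈ PP.H75.st b := by rw [← hS]; exact g.2
      rw [hst, Subgroup.mem_subgroupOf] at h3
      exact h3
    obtain ⟨k, hk⟩ := hgen _ hg
    refine ⟨k, ?_⟩
    rw [hC₂, Subgroup.mem_subgroupOf, hC₁, Subgroup.mem_subgroupOf, hs₀]
    exact hk
  have h3 := count hF hC₂n (b := fun t : S => b t)
    (fun x hx => by
      apply hbs
      intro h'
      apply hx
      rw [hC₂, Subgroup.mem_subgroupOf]
      exact h')
    (fun x y => hinv y ((x : S) : Subgroup.normalizer (V : Set G))) hθ1.1 hθ1.2 hgen2 hstab hnd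
  rw [hidx] at h3
  exact h3

end Pool.Agent.PP.C2.H82
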