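import Pool.Agent.Helper82_C2.Ext

/-!
# Squad C2, row NRM, part 2: the representations over a stable representation
-/

open scoped BigOperators

set_option linter.unusedSectionVars false

noncomputable section

namespace Pool.Agent.PP.C2.H82

open Pool.Agent.Helper51_AWC Pool.Agent.Helper79_WRA Pool.Agent.PP Pool.Agent.PP.KF
open Pool.Agent.PP.K9

section cnt

variable {F : Type} [Field F] {S : Type} [Group S] [Finite S] {C : Subgroup S}

theorem ord_quot (hC : C.Normal) {t : S} (hgen : ∀ g : S, ∃ k : ℕ, t ^ k * g ∈ C) (j : ℕ) :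
    t ^ j ∈ C ↔ C.index ∣ j := by
  have h1 : ∀ x : S ⧸ C, x ∈ Subgroup.zpowers (t : S ⧸ C) := by
    intro x
    obtain ⟨g, rfl⟩ := QuotientGroup.mk_surjective x
    obtain ⟨k, hk⟩ := hgen g⁻¹
    refine ⟨k, ?_⟩
    change (t : S ⧸ C) ^ (k : ℤ) = (g : S ⧸ C)
    rw [zpow_natCast]
    have h2 : ((t ^ k * g⁻¹ : S) : S ⧸ C) = 1 := (QuotientGroup.eq_one_iff _).2 hk
    rw [QuotientGroup.mk_mul, QuotientGroup.mk_pow, QuotientGroup.mk_inv] at h2
    exact mul_inv_eq_one.1 h2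
  have h2 : orderOf (t : S ⧸ C) = C.index := orderOf_eq_card_of_forall_mem_zpowers h1
  rw [← h2, orderOf_dvd_iff_pow_eq_one, ← QuotientGroup.mk_pow, QuotientGroup.eq_one_iff]

theorem trace_ne {n : ℕ} {H : Type} [Group H] {σ : H →* Matrix (Fin n) (Fin n) F} (hσ : IsIrr σ)
    {X : Matrix (Fin n) (Fin n) F} (hX : X ≠ 0) : ∃ c, (X * σ c).trace ≠ 0 := by
  by_contra h
  push Not at h
  apply hX
  rw [Matrix.ext_iff_trace_mul_right]
  intro B
  have hB : B ∈ Submodule.span F (Set.range σ) := by rw [hσ.2]; trivial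
  rw [zero_mul, Matrix.trace_zero]
  induction hB using Submodule.span_induction with
  | mem x hx =>
    obtain ⟨y, rfl⟩ := hx
    exact h y
  | zero => rw [mul_zero, Matrix.trace_zero]
  | add x y _ _ hx hy => rw [mul_add, Matrix.trace_add, hx, hy, add_zero]
  | smul c x _ hx => rw [mul_smul_comm, Matrix.trace_smul, hx, smul_zero]

/-- the conjugate representation -/
def crep' (hC : C.Normal) (t : S) {n : ℕ} (σ : C →* Matrix (Fin n) (Fin n) F) :
    C →* Matrix (Fin n) (Fin n) F where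
  toFun c := σ (cn hC t c)
  map_one' := by
    have e : cn hC t 1 = 1 := Subtype.ext (by simp [cn])
    rw [e, map_one]
  map_mul' := by
    intro a b
    have e : cn hC t (a * b) = cn hC t a * cn hC t b := by
      apply Subtype.ext
      change t * ((a : S) * b) * t⁻¹ = t * a * t⁻¹ * (t * b * t⁻¹)
      group
    rw [e, map_mul]

theorem crep_irr (hC : C.Normal) (t : S) {n : ℕ} {σ : C →* Matrix (Fin n) (Fin n) F}
    (hσ : IsIrr σ) : IsIrr (crep' hC t σ) := by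
  refine ⟨hσ.1, ?_⟩
  have e : Set.range (crep' hC t σ) = Set.range σ := by
    ext x
    constructor
    · rintro ⟨c, rfl⟩
      exact ⟨cn hC t c, rfl⟩
    · rintro ⟨c, rfl⟩
      refine ⟨cn hC t⁻¹ c, ?_⟩
      change σ (cn hC t (cn hC t⁻¹ c)) = σ c
      congr 1
      apply Subtype.ext
      change t * (t⁻¹ * (c : S) * t⁻¹⁻¹) * t⁻¹ = c
      group
  rw [e, hσ.2]

theorem count {ℓ : ℕ} (hF : GoodF ℓ F) (hC : C.Normal) {b : S → F}
    (hsupp : ∀ x, x ∉ C → b x = 0) (hcl : IsCl (fun t : C => b t)) {θ : C → F}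
    (hθ : θ ∈ IBr F C) (hbθ : actF (fun t : C => b t) θ = θ) {t₀ : S}
    (hgen : ∀ g : S, ∃ k : ℕ, t₀ ^ k * g ∈ C) (hst : ∀ c : C, θ (cn hC t₀ c) = θ c)
    (hidx : ¬ ℓ ∣ C.index) : C.index ≤ PP.H75.cnt b := by
  classical
  have := hF.closed
  have := hF.char
  obtain ⟨n, σ, hσ, rfl⟩ := hθ
  obtain ⟨s, hs⟩ : ∃ s, s = C.index := ⟨_, rfl⟩
  have hord : ∀ j : ℕ, t₀ ^ j ∈ C ↔ s ∣ j := by rw [hs]; exact ord_quot hC hgen
  have hs0 : 0 < s := by
    rw [hs]
    exact Nat.pos_of_ne_zero Subgroup.index_ne_zero_of_finite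
  have hts : t₀ ^ s ∈ C := (hord s).2 dvd_rfl
  have hgen' : ∀ g : S, ∃ (k : ℕ) (c : C), g = t₀ ^ k * c := by
    intro g
    obtain ⟨k, hk⟩ := hgen g⁻¹
    have h1 : (t₀ ^ k)⁻¹ * (t₀ ^ k * g⁻¹)⁻¹ * ((t₀ ^ k)⁻¹)⁻¹ ∈ C :=
      hC.conj_mem _ (C.inv_mem hk) _
    exact ⟨k, ⟨_, h1⟩, by group⟩
  obtain ⟨X₀, Y₀, -, hXY, hYX, hX₀⟩ := PP.H20.ibc ℓ F hF C n n σ (crep' hC t₀ σ) hσ
    (crep_irr hC t₀ hσ) (by funext c; exact (hst c).symm)
  obtain ⟨X, hXne, hX, hXs⟩ := exists_X hC hσ hXY hYX hX₀ hs0 hts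
  have hsF : NeZero (s : F) := by
    refine ⟨?_⟩
    rw [Ne, CharP.cast_eq_zero_iff F ℓ, hs]
    exact hidx
  obtain ⟨w, hw⟩ : ∃ w : F, IsPrimitiveRoot w s := HasEnoughRootsOfUnity.exists_primitiveRoot F s
  have hX' : ∀ k : ℕ, (∀ c : C, (w ^ k • X) * σ c = σ (cn hC t₀ c) * (w ^ k • X)) ∧
      (w ^ k • X) ^ s = σ ⟨t₀ ^ s, hts⟩ := by
    intro k
    constructor
    · intro c
      rw [Matrix.smul_mul, hX, Matrix.mul_smul]
    · rw [smul_pow, hXs, ← pow_mul, mul_comm, pow_mul, hw.pow_eq_one, one_pow, one_smul]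
  have hex : ∀ k : ℕ, ∃ ρ : S →* Matrix (Fin n) (Fin n) F, (∀ c : C, ρ c = σ c) ∧
      ρ t₀ = w ^ k • X := fun k => exists_ext hC σ hgen' (hX' k).1 hord hts (hX' k).2
  choose ρ hρC hρt using hex
  have hirr : ∀ k, IsIrr (ρ k) := by
    intro k
    refine ⟨hσ.1, ?_⟩
    rw [eq_top_iff, ← hσ.2]
    apply Submodule.span_mono
    rintro _ ⟨c, rfl⟩
    exact ⟨c, hρC k c⟩
  -- the block acts as the identity
  have hev : ev σ (fun t : C => b t) = 1 := by
    obtain ⟨v, hv1, hv2, -⟩ := PP.H20.eig F C n σ hσ _ hcl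
    have h1 : v = 1 := by
      by_contra hne
      apply PP.H75.tr_ne_zero hσ
      have h2 : (v - 1) • tr σ = 0 := by rw [sub_smul, one_smul, ← hv2, hbθ, sub_self]
      exact (smul_eq_zero.1 h2).resolve_left (sub_ne_zero.2 hne)
    rw [hv1, h1, map_one]
  have hev' : ∀ k, ev (ρ k) b = 1 := by
    intro k
    rw [← hev]
    unfold ev
    rw [PP.H75.sum_sub C _ (fun x hx => by rw [hsupp x hx, zero_smul])]
    apply finsum_congr
    intro c
    rw [hρC]
  obtain ⟨c₀, hc₀⟩ := trace_ne hσ hXne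
  have hinj : Function.Injective (fun k : Fin s => tr (ρ k)) := by
    intro k k' h
    have h1 := congrFun h (t₀ * c₀)
    change (ρ k (t₀ * c₀)).trace = (ρ k' (t₀ * c₀)).trace at h1
    rw [map_mul, map_mul, hρt, hρt, hρC, hρC, Matrix.smul_mul, Matrix.smul_mul,
      Matrix.trace_smul, Matrix.trace_smul, smul_eq_mul, smul_eq_mul] at h1
    have h2 := mul_right_cancel₀ hc₀ h1
    exact Fin.ext (hw.pow_inj k.2 k'.2 h2)
  have hfin : {f : S → F | f ∈ IBr F S ∧ actF b f = f}.Finite :=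
    (PP.H20.ibf ℓ F hF S).1.subset (fun f hf => hf.1)
  have h3 : Set.range (fun k : Fin s => tr (ρ k)) ⊆
      {f : S → F | f ∈ IBr F S ∧ actF b f = f} := by
    rintro _ ⟨k, rfl⟩
    exact ⟨⟨n, ρ k, hirr k, rfl⟩, PP.H75.actF_one (hev' k)⟩
  have h4 := Set.ncard_le_ncard h3 hfin
  have h5 : (Set.range (fun k : Fin s => tr (ρ k))).ncard = s := by
    rw [← Set.image_univ, Set.ncard_image_of_injective _ hinj, Set.ncard_univ, Nat.card_fin]
  rw [h5] at h4
  rw [← hs]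
  exact h4

end cnt

end Pool.Agent.PP.C2.H82
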