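import Pool.Agent.Helper57_C2.Stmts
import Pool.Agent.Helper20_PP.Ibr
import Pool.Agent.Helper20_PP.Nls
import Pool.Agent.Helper75_PP.Fr

/-!
# Squad C2, row NRM, part 1: extension of a stable representation to a cyclic extension
-/

open scoped BigOperators

set_option linter.unusedSectionVars false

noncomputable section

namespace Pool.Agent.PP.C2.H82

open Pool.Agent.Helper51_AWC Pool.Agent.Helper79_WRA Pool.Agent.PP Pool.Agent.PP.KF
open Pool.Agent.PP.K9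

section ext

variable {F : Type} [Field F] {S : Type} [Group S] {C : Subgroup S} {n : ℕ}

/-- conjugation by `g` on the normal subgroup `C` -/
def cn (hC : C.Normal) (g : S) (c : C) : C := ⟨g * c * g⁻¹, hC.conj_mem c c.2 g⟩

/-- powers of an intertwiner -/
theorem pow_move (hC : C.Normal) (σ : C →* Matrix (Fin n) (Fin n) F) {t : S}
    {X : Matrix (Fin n) (Fin n) F} (hX : ∀ c : C, X * σ c = σ (cn hC t c) * X) (j : ℕ) (c : C) :
    X ^ j * σ c = σ (cn hC (t ^ j) c) * X ^ j := by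
  induction j generalizing c with
  | zero =>
    have e : cn hC (t ^ 0) c = c := Subtype.ext (by simp [cn])
    rw [e, pow_zero, Matrix.one_mul, Matrix.mul_one]
  | succ j ih =>
    have e : cn hC (t ^ (j + 1)) c = cn hC (t ^ j) (cn hC t c) := by
      apply Subtype.ext
      change t ^ (j + 1) * (c : S) * (t ^ (j + 1))⁻¹ = t ^ j * (t * c * t⁻¹) * (t ^ j)⁻¹
      rw [pow_succ]
      group
    rw [pow_succ, Matrix.mul_assoc, hX, ← Matrix.mul_assoc, ih, Matrix.mul_assoc, e]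

theorem key (hC : C.Normal) (σ : C →* Matrix (Fin n) (Fin n) F) {t : S}
    {X : Matrix (Fin n) (Fin n) F} {s : ℕ} (hs : ∀ j : ℕ, t ^ j ∈ C ↔ s ∣ j)
    (hts : t ^ s ∈ C) (hXs : X ^ s = σ ⟨t ^ s, hts⟩) (i j : ℕ) (c c' : C) (hij : j ≤ i)
    (h : t ^ i * (c : S) = t ^ j * c') : X ^ i * σ c = X ^ j * σ c' := by
  obtain ⟨d, rfl⟩ := Nat.exists_eq_add_of_le hij
  have h1 : t ^ d * (c : S) = c' := by
    rw [pow_add, mul_assoc] at h
    exact mul_left_cancel h
  have h2 : t ^ d ∈ C := by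
    have : t ^ d = (c' : S) * (c : S)⁻¹ := by rw [← h1, mul_inv_cancel_right]
    rw [this]
    exact C.mul_mem c'.2 (C.inv_mem c.2)
  obtain ⟨k, rfl⟩ := (hs d).1 h2
  have h3 : X ^ (s * k) = σ (⟨t ^ s, hts⟩ ^ k) := by rw [pow_mul, hXs, map_pow]
  have h4 : (⟨t ^ s, hts⟩ ^ k * c : C) = c' := by
    apply Subtype.ext
    change (t ^ s) ^ k * (c : S) = c'
    rw [← pow_mul]
    exact h1
  rw [pow_add, h3, Matrix.mul_assoc, ← map_mul, h4]

theorem exists_ext (hC : C.Normal) (σ : C →* Matrix (Fin n) (Fin n) F) {t : S}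
    (hgen : ∀ g : S, ∃ (k : ℕ) (c : C), g = t ^ k * c)
    {X : Matrix (Fin n) (Fin n) F} (hX : ∀ c : C, X * σ c = σ (cn hC t c) * X)
    {s : ℕ} (hs : ∀ j : ℕ, t ^ j ∈ C ↔ s ∣ j)
    (hts : t ^ s ∈ C) (hXs : X ^ s = σ ⟨t ^ s, hts⟩) :
    ∃ ρ : S →* Matrix (Fin n) (Fin n) F, (∀ c : C, ρ c = σ c) ∧ ρ t = X := by
  have key' : ∀ (i j : ℕ) (c c' : C), t ^ i * (c : S) = t ^ j * c' →
      X ^ i * σ c = X ^ j * σ c' := by
    intro i j c c' h
    rcases le_total j i with hij | hij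
    · exact key hC σ hs hts hXs i j c c' hij h
    · exact (key hC σ hs hts hXs j i c' c hij h.symm).symm
  choose k c hkc using hgen
  have hval : ∀ (i : ℕ) (d : C), X ^ k (t ^ i * d) * σ (c (t ^ i * d)) = X ^ i * σ d :=
    fun i d => key' _ _ _ _ (hkc (t ^ i * d)).symm
  let ρ : S →* Matrix (Fin n) (Fin n) F :=
    { toFun := fun g => X ^ k g * σ (c g)
      map_one' := by
        have h1 := hval 0 1
        have e : t ^ 0 * ((1 : C) : S) = 1 := by simp
        rw [e, pow_zero, map_one, Matrix.mul_one] at h1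
        exact h1
      map_mul' := by
        intro a b
        obtain ⟨i, d, rfl⟩ : ∃ (i : ℕ) (d : C), a = t ^ i * d := ⟨k a, c a, hkc a⟩
        obtain ⟨j, d', rfl⟩ : ∃ (j : ℕ) (d : C), b = t ^ j * d := ⟨k b, c b, hkc b⟩
        rw [hval i d, hval j d']
        have h1 := pow_move hC σ hX j (cn hC (t ^ j)⁻¹ d)
        have e1 : cn hC (t ^ j) (cn hC (t ^ j)⁻¹ d) = d := by
          apply Subtype.ext
          change t ^ j * ((t ^ j)⁻¹ * (d : S) * ((t ^ j)⁻¹)⁻¹) * (t ^ j)⁻¹ = d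
          group
        rw [e1] at h1
        have e2 : t ^ i * (d : S) * (t ^ j * d') =
            t ^ (i + j) * ((cn hC (t ^ j)⁻¹ d * d' : C) : S) := by
          change _ = t ^ (i + j) * ((t ^ j)⁻¹ * (d : S) * ((t ^ j)⁻¹)⁻¹ * d')
          rw [pow_add]
          group
        rw [e2, hval, map_mul, pow_add]
        calc X ^ i * X ^ j * (σ (cn hC (t ^ j)⁻¹ d) * σ d')
            = X ^ i * (X ^ j * σ (cn hC (t ^ j)⁻¹ d)) * σ d' := by
              simp only [Matrix.mul_assoc]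
          _ = X ^ i * (σ d * X ^ j) * σ d' := by rw [h1]
          _ = X ^ i * σ d * (X ^ j * σ d') := by simp only [Matrix.mul_assoc] }
  refine ⟨ρ, ?_, ?_⟩
  · intro d
    have h1 := hval 0 d
    have e : t ^ 0 * (d : S) = d := by simp
    rw [e, pow_zero, Matrix.one_mul] at h1
    exact h1
  · have h1 := hval 1 1
    have e : t ^ 1 * ((1 : C) : S) = t := by simp
    rw [e, pow_one, map_one, Matrix.mul_one] at h1
    exact h1

/-- a matrix which commutes with an irreducible representation is a scalar -/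
theorem schur {H : Type} [Group H] {σ : H →* Matrix (Fin n) (Fin n) F} (hσ : IsIrr σ)
    {Z : Matrix (Fin n) (Fin n) F} (hZ : ∀ c, Z * σ c = σ c * Z) :
    ∃ z : F, Z = z • (1 : Matrix (Fin n) (Fin n) F) := by
  have h1 : ∀ B : Matrix (Fin n) (Fin n) F, Z * B = B * Z := by
    intro B
    have hB : B ∈ Submodule.span F (Set.range σ) := by rw [hσ.2]; trivial
    induction hB using Submodule.span_induction with
    | mem x hx =>
      obtain ⟨c, rfl⟩ := hx
      exact hZ c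
    | zero => rw [Matrix.mul_zero, Matrix.zero_mul]
    | add x y _ _ hx hy => rw [Matrix.mul_add, Matrix.add_mul, hx, hy]
    | smul c x _ hx => rw [Matrix.mul_smul, Matrix.smul_mul, hx]
  have h2 : Z ∈ Set.range (Matrix.scalar (Fin n) : F → Matrix (Fin n) (Fin n) F) :=
    Matrix.mem_range_scalar_of_commute_single (fun i j _ => (h1 _).symm)
  obtain ⟨z, hz⟩ := h2
  exact ⟨z, by rw [← hz, Matrix.smul_one_eq_diagonal]; rfl⟩

/-- the normalised intertwiner -/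
theorem exists_X [IsAlgClosed F] (hC : C.Normal) {σ : C →* Matrix (Fin n) (Fin n) F}
    (hσ : IsIrr σ) {t : S} {X₀ Y₀ : Matrix (Fin n) (Fin n) F} (hXY : X₀ * Y₀ = 1)
    (hYX : Y₀ * X₀ = 1) (hX : ∀ c : C, X₀ * σ c = σ (cn hC t c) * X₀) {s : ℕ} (hs : 0 < s)
    (hts : t ^ s ∈ C) : ∃ X : Matrix (Fin n) (Fin n) F,
      X ≠ 0 ∧ (∀ c : C, X * σ c = σ (cn hC t c) * X) ∧ X ^ s = σ ⟨t ^ s, hts⟩ := by
  obtain ⟨τ, hτ⟩ : ∃ τ : C, τ = ⟨t ^ s, hts⟩ := ⟨_, rfl⟩
  have hconj : ∀ c : C, cn hC (t ^ s) c = τ * c * τ⁻¹ := by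
    intro c
    rw [hτ]
    rfl
  have hττ : σ τ * σ τ⁻¹ = 1 := by rw [← map_mul, mul_inv_cancel, map_one]
  have hττ' : σ τ⁻¹ * σ τ = 1 := by rw [← map_mul, inv_mul_cancel, map_one]
  have h1 : ∀ c : C, (σ τ⁻¹ * X₀ ^ s) * σ c = σ c * (σ τ⁻¹ * X₀ ^ s) := by
    intro c
    rw [Matrix.mul_assoc, pow_move hC σ hX s c, hconj, map_mul, map_mul]
    calc σ τ⁻¹ * (σ τ * σ c * σ τ⁻¹ * X₀ ^ s) = (σ τ⁻¹ * σ τ) * σ c * (σ τ⁻¹ * X₀ ^ s) := by
          simp only [Matrix.mul_assoc]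
      _ = σ c * (σ τ⁻¹ * X₀ ^ s) := by rw [hττ', Matrix.one_mul]
  obtain ⟨z, hz⟩ := schur hσ h1
  have h2 : X₀ ^ s = z • σ τ := by
    have e : X₀ ^ s = σ τ * (σ τ⁻¹ * X₀ ^ s) := by
      rw [← Matrix.mul_assoc, hττ, Matrix.one_mul]
    rw [e, hz, Matrix.mul_smul, Matrix.mul_one]
  have hone : (1 : Matrix (Fin n) (Fin n) F) ≠ 0 := by
    intro h
    have := congrFun (congrFun h ⟨0, hσ.1⟩) ⟨0, hσ.1⟩
    rw [Matrix.one_apply_eq] at this
    exact one_ne_zero this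
  have hz0 : z ≠ 0 := by
    intro h0
    have hpow : X₀ ^ s * Y₀ ^ s = 1 := by
      have hcom : Commute X₀ Y₀ := by
        change X₀ * Y₀ = Y₀ * X₀
        rw [hXY, hYX]
      rw [← hcom.mul_pow, hXY, one_pow]
    rw [h2, h0, zero_smul, Matrix.zero_mul] at hpow
    exact hone hpow.symm
  obtain ⟨w, hw⟩ := IsAlgClosed.exists_pow_nat_eq z⁻¹ hs
  have hw0 : w ≠ 0 := by
    intro h0
    rw [h0, zero_pow hs.ne'] at hw
    exact inv_ne_zero hz0 hw.symm
  have hX0 : X₀ ≠ 0 := by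
    intro h0
    rw [h0, Matrix.zero_mul] at hXY
    exact hone hXY.symm
  refine ⟨w • X₀, smul_ne_zero hw0 hX0, ?_, ?_⟩
  · intro c
    rw [Matrix.smul_mul, hX, Matrix.mul_smul]
  · rw [smul_pow, h2, hw, smul_smul, inv_mul_cancel₀ hz0, one_smul, hτ]

end ext

end Pool.Agent.PP.C2.H82
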